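import Pool.Agent.Q9.Corner
import Pool.Agent.Q9.Trunc

/-!
# A super-decomposable group with noncommutative centrally essential endomorphism ring
-/

set_option autoImplicit false

open Q9.Trunc MonoidAlgebra

namespace Pool.Agent.Results.MP_6d0c2f_al.SuperDecomposable

/-- `A` is super-decomposable if no direct summand of `A` is both nonzero and indecomposable: every
nonzero direct summand `X` of `A` (with some complement `Y`) is the direct sum `X₁ ⊕ X₂` of two
nonzero subgroups. -/
def IsSuperDecomposable (A : Type) [AddCommGroup A] : Prop :=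
  ∀ X Y : AddSubgroup A, IsCompl X Y → X ≠ ⊥ →
    ∃ X₁ X₂ : AddSubgroup A, X₁ ≠ ⊥ ∧ X₂ ≠ ⊥ ∧ X₁ ⊔ X₂ = X ∧ Disjoint X₁ X₂

/-- Finite sets of natural numbers, a monoid under union. -/
@[ext] structure FS : Type where
  /-- the underlying finite set -/
  s : Finset ℕ

instance : CommMonoid FS where
  mul a b := ⟨a.s ∪ b.s⟩
  one := ⟨∅⟩
  mul_assoc a b c := FS.ext (Finset.union_assoc a.s b.s c.s)
  mul_comm a b := FS.ext (Finset.union_comm a.s b.s)
  one_mul a := FS.ext (Finset.empty_union a.s)
  mul_one a := FS.ext (Finset.union_empty a.s)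

lemma FS.mul_s (a b : FS) : (a * b).s = a.s ∪ b.s := rfl

instance : Countable FS :=
  (show Function.Injective FS.s from fun _ _ h => FS.ext h).countable

/-- The commutative ring of coefficients. -/
abbrev BB : Type := MonoidAlgebra ℤ FS

/-- Every nonzero element of `BB` is split by an idempotent. -/
lemma split_BB (a : BB) (ha : a ≠ 0) : ∃ u : BB, u * u = u ∧ a * u ≠ 0 ∧ a * (1 - u) ≠ 0 := by
  classical
  have hsupp : a.coeff.support.Nonempty := by
    rw [Finsupp.support_nonempty_iff]
    intro h
    exact ha (MonoidAlgebra.coeff_injective (by rw [h]; rfl))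
  obtain ⟨F0, hF0⟩ := hsupp
  obtain ⟨n, hn⟩ := Infinite.exists_notMem_finset
    (a.coeff.support.biUnion (fun F => F.s))
  have hn' : ∀ F ∈ a.coeff.support, n ∉ F.s := by
    intro F hF h
    exact hn (Finset.mem_biUnion.2 ⟨F, hF, h⟩)
  let N : FS := ⟨{n}⟩
  have hNN : N * N = N := FS.ext (Finset.union_idempotent ({n} : Finset ℕ))
  have h1 : (a * single N 1).coeff (F0 * N) = a.coeff F0 * 1 := by
    apply MonoidAlgebra.coeff_mul_single_eq_coeff_mul
    intro F hF
    constructor
    · intro h
      have h2 : F.s ∪ {n} = F0.s ∪ {n} := congrArg FS.s h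
      have h3 := congrArg (fun s : Finset ℕ => s.erase n) h2
      apply FS.ext
      ext k
      have h4 := congrArg (fun s : Finset ℕ => k ∈ s) h3
      simp only [Finset.mem_erase, Finset.mem_union, Finset.mem_singleton, eq_iff_iff] at h4
      by_cases hk : k = n
      · subst hk
        exact ⟨fun h => absurd h (hn' F hF), fun h => absurd h (hn' F0 hF0)⟩
      · constructor
        · intro h5
          rcases (h4.1 ⟨hk, Or.inl h5⟩).2 with h6 | h6
          · exact h6
          · exact absurd h6 hk
        · intro h5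
          rcases (h4.2 ⟨hk, Or.inl h5⟩).2 with h6 | h6
          · exact h6
          · exact absurd h6 hk
    · rintro rfl; rfl
  have h2 : (a * single N 1).coeff F0 = 0 := by
    apply MonoidAlgebra.coeff_mul_single_of_forall_mul_ne
    intro F h
    apply hn' F0 hF0
    rw [← h]
    exact Finset.mem_union_right _ (Finset.mem_singleton_self n)
  refine ⟨single N 1, ?_, ?_, ?_⟩
  · rw [single_mul_single, hNN, one_mul]
  · intro h
    rw [h, mul_one] at h1
    exact (Finsupp.mem_support_iff.1 hF0) h1.symm
  · intro h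
    rw [mul_sub, mul_one] at h
    have h3 := congrArg (fun x => MonoidAlgebra.coeff x F0) h
    simp only [MonoidAlgebra.coeff_sub, Finsupp.sub_apply, h2, sub_zero,
      MonoidAlgebra.coeff_zero, Finsupp.coe_zero, Pi.zero_apply] at h3
    exact (Finsupp.mem_support_iff.1 hF0) h3

/-- The ring. -/
abbrev RR : Type := MonoidAlgebra BB Sg

lemma split_RR (a : RR) (ha : a ≠ 0) :
    ∃ u ∈ Subring.center RR, u * u = u ∧ a * u ≠ 0 ∧ a * (1 - u) ≠ 0 := by
  classical
  have hsupp : a.coeff.support.Nonempty := by
    rw [Finsupp.support_nonempty_iff]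
    intro h
    exact ha (MonoidAlgebra.coeff_injective (by rw [h]; rfl))
  obtain ⟨s, hs⟩ := hsupp
  rw [Finsupp.mem_support_iff] at hs
  obtain ⟨u, huu, h1, h2⟩ := split_BB _ hs
  have hcoeff : ∀ v : BB, (a * single (1 : Sg) v).coeff s = a.coeff s * v := by
    intro v
    apply MonoidAlgebra.coeff_mul_single_eq_coeff_mul
    intro m' _
    rw [mul_one]
  refine ⟨single (1 : Sg) u, central_single (fun t => by rw [one_mul, mul_one]) u, ?_, ?_, ?_⟩
  · rw [single_mul_single, huu, one_mul]
  · intro h
    apply h1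
    rw [← hcoeff, h]
    rfl
  · intro h
    apply h2
    have h3 : (1 : RR) - single (1 : Sg) u = single (1 : Sg) (1 - u) := by
      rw [MonoidAlgebra.one_def, ← MonoidAlgebra.single_sub]
    rw [← hcoeff, ← h3, h]
    rfl

/-- If all nonzero elements of the endomorphism ring are split by central idempotents, then the
group is super-decomposable. -/
lemma superDecomposable_of_split (A : Type) [AddCommGroup A]
    (h : ∀ a : AddMonoid.End A, a ≠ 0 →
      ∃ u ∈ Subring.center (AddMonoid.End A), u * u = u ∧ a * u ≠ 0 ∧ a * (1 - u) ≠ 0) :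
    IsSuperDecomposable A := by
  intro X Y hXY hX
  -- the projection onto `X`
  obtain ⟨π, hπX, hπY⟩ : ∃ π : AddMonoid.End A, (∀ x ∈ X, π x = x) ∧ (∀ a, π a ∈ X) := by
    have hXY' : IsCompl (AddSubgroup.toIntSubmodule X) (AddSubgroup.toIntSubmodule Y) :=
      (OrderIso.isCompl_iff (AddSubgroup.toIntSubmodule)).1 hXY
    let P := (AddSubgroup.toIntSubmodule X).subtype ∘ₗ Submodule.projectionOnto _ _ hXY'
    refine ⟨P.toAddMonoidHom, ?_, ?_⟩
    · intro x hx
      have := Submodule.projectionOnto_apply_left hXY' ⟨x, hx⟩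
      exact congrArg Subtype.val this
    · intro a
      exact (Submodule.projectionOnto _ _ hXY' a).2
  have hπ0 : π ≠ 0 := by
    intro h0
    apply hX
    rw [eq_bot_iff]
    intro x hx
    rw [← hπX x hx, h0]
    exact AddSubgroup.zero_mem _
  obtain ⟨u, huc, huu, h1, h2⟩ := h π hπ0
  rw [Subring.mem_center_iff] at huc
  have huπ : ∀ a, u (π a) = π (u a) := fun a => (DFunLike.congr_fun (huc π) a).symm
  have huu' : ∀ a, u (u a) = u a := fun a => DFunLike.congr_fun huu a
  refine ⟨(π * u).range, (π * (1 - u)).range, ?_, ?_, ?_, ?_⟩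
  · intro h3
    apply h1
    ext a
    have : (π * u) a ∈ (π * u).range := ⟨a, rfl⟩
    rw [h3] at this
    exact this
  · intro h3
    apply h2
    ext a
    have : (π * (1 - u)) a ∈ (π * (1 - u)).range := ⟨a, rfl⟩
    rw [h3] at this
    exact this
  · apply le_antisymm
    · rw [sup_le_iff]
      constructor
      · rintro _ ⟨a, rfl⟩; exact hπY _
      · rintro _ ⟨a, rfl⟩; exact hπY _
    · intro x hx
      rw [AddSubgroup.mem_sup]
      refine ⟨(π * u) x, ⟨x, rfl⟩, (π * (1 - u)) x, ⟨x, rfl⟩, ?_⟩
      show π (u x) + π (x - u x) = x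
      rw [map_sub, add_sub_cancel, hπX x hx]
  · rw [AddSubgroup.disjoint_def]
    rintro _ ⟨a, rfl⟩ ⟨b, hb⟩
    have h3 : π (b - u b) = π (u a) := hb
    have h4 : u (π (u a)) = π (u a) := by rw [huπ, huu']
    have h5 : u (π (b - u b)) = 0 := by
      rw [huπ, map_sub, huu', sub_self, map_zero]
    show π (u a) = 0
    rw [← h4, ← h3, h5]

/-- There is a super-decomposable abelian group whose endomorphism ring is noncommutative and
centrally essential. -/
theorem result : ∃ (A : Type) (_ : AddCommGroup A), IsSuperDecomposable A ∧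
    (∃ f g : AddMonoid.End A, f * g ≠ g * f) ∧ CentrallyEssential (AddMonoid.End A) := by
  have : Module.Free ℤ BB := free_monoidAlgebra
  have : Module.Free ℤ RR := free_monoidAlgebra
  obtain ⟨A, hA, ⟨e⟩⟩ := Q9.Corner.corner RR
  refine ⟨A, hA, superDecomposable_of_split A ?_, ?_,
    centrallyEssential_of_ringEquiv e centrallyEssential⟩
  · intro a ha
    have ha' : e.symm a ≠ 0 := fun h0 => ha (by rw [← e.apply_symm_apply a, h0, map_zero])
    obtain ⟨u, hu, huu, h1, h2⟩ := split_RR _ ha'
    refine ⟨e u, ?_, by rw [← map_mul, huu], ?_, ?_⟩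
    · rw [Subring.mem_center_iff] at hu ⊢
      intro g
      have := congrArg e (hu (e.symm g))
      rwa [map_mul, map_mul, e.apply_symm_apply] at this
    · intro h3
      apply h1
      apply e.injective
      rw [map_mul, e.apply_symm_apply, h3, map_zero]
    · intro h3
      apply h2
      apply e.injective
      rw [map_mul, e.apply_symm_apply, map_sub, map_one, h3, map_zero]
  · obtain ⟨x, y, hxy⟩ := noncommutative (B := BB)
    refine ⟨e x, e y, fun h => hxy (e.injective ?_)⟩
    rw [map_mul, map_mul, h]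

end Pool.Agent.Results.MP_6d0c2f_al.SuperDecomposable
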